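import Pool.Agent.D0H81.SR.Final

set_option autoImplicit false

open Set Pool.Agent.D0H81.SR

namespace Pool.Agent.Results.MP_134ef0_gt.SubRiemannianEisenhart

/-- Sub-Riemannian Eisenhart theorem. Let `(U, D, g)` be a sub-Riemannian structure (in
coordinates), `V ⊆ U` an open neighbourhood of `q₀` and `g'` a sub-Riemannian metric on `(V, D)`
affinely equivalent to `g` on `V`. Suppose that `g'` is not constantly proportional to `g` on any
neighbourhood of `q₀` (or that `V` is connected and `g'` is not constantly proportional to `g` on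
`V`). Then `(U, D, g)` is a direct product of two sub-Riemannian structures near `q₀`. -/
theorem result {E : Type} [NormedAddCommGroup E] [NormedSpace ℝ E] [FiniteDimensional ℝ E]
    {U : Set E} {D : E → Submodule ℝ E} {g : E → E → E → ℝ} (hS : IsSubRiemannian U D g)
    {q₀ : E} {V : Set E} (hVU : V ⊆ U) (hV : IsOpen V) (hq₀ : q₀ ∈ V)
    {g' : E → E → E → ℝ} (hg' : IsMetric V D g') (haff : AffinelyEquivalent D g g' V)
    (hne : (∀ W ⊆ V, IsOpen W → q₀ ∈ W → ¬ ConstProportional D g g' W) ∨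
      (IsPreconnected V ∧ ¬ ConstProportional D g g' V)) :
    IsProductNear U D g q₀ := by
  have hg : IsMetric V D g := hS.metric.mono hVU
  rcases local_main hVU hV hS.distribution hS.bracket hg hg' haff.1 hq₀ with h | h
  · exact h
  obtain ⟨B, hBV, hBo, hqB, κ, hκ, hB⟩ := h
  exfalso
  rcases hne with hne | ⟨hpre, hne⟩
  · exact hne B hBV hBo hqB ⟨κ, hκ, hB⟩
  · apply hne
    refine ⟨κ, hκ, ?_⟩
    have hloc : ∀ q : E, ∃ B : Set E, q ∈ V → B ⊆ V ∧ IsOpen B ∧ q ∈ B ∧ ∀ κ : ℝ, ∀ q1 ∈ B,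
        PropAt D g g' κ q1 → ∀ q ∈ B, PropAt D g g' κ q := by
      intro q
      by_cases hq : q ∈ V
      · obtain ⟨B, h1, h2, h3, h4⟩ :=
          local_const hVU hV hS.distribution hS.bracket hg hg' haff.1 hq
        exact ⟨B, fun _ => ⟨h1, h2, h3, h4⟩⟩
      · exact ⟨∅, fun h => absurd h hq⟩
    choose N hN using hloc
    set O1 : Set E := ⋃ q ∈ {q | q ∈ V ∧ PropAt D g g' κ q}, N q with hO1
    set O2 : Set E := ⋃ q ∈ {q | q ∈ V ∧ ¬ PropAt D g g' κ q}, N q with hO2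
    have ho1 : IsOpen O1 := isOpen_biUnion fun q hq => (hN q hq.1).2.1
    have ho2 : IsOpen O2 := isOpen_biUnion fun q hq => (hN q hq.1).2.1
    have hcov : V ⊆ O1 ∪ O2 := by
      intro q hq
      by_cases hP : PropAt D g g' κ q
      · exact Or.inl (mem_biUnion (show q ∈ {q | q ∈ V ∧ PropAt D g g' κ q} from ⟨hq, hP⟩)
          (hN q hq).2.2.1)
      · exact Or.inr (mem_biUnion (show q ∈ {q | q ∈ V ∧ ¬ PropAt D g g' κ q} from ⟨hq, hP⟩)
          (hN q hq).2.2.1)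
    intro q hq
    by_contra hP
    have h1 : (V ∩ O1).Nonempty := ⟨q₀, hq₀, mem_biUnion
      (show q₀ ∈ {q | q ∈ V ∧ PropAt D g g' κ q} from ⟨hq₀, hB q₀ hqB⟩) (hN q₀ hq₀).2.2.1⟩
    have h2 : (V ∩ O2).Nonempty := ⟨q, hq, mem_biUnion
      (show q ∈ {q | q ∈ V ∧ ¬ PropAt D g g' κ q} from ⟨hq, hP⟩) (hN q hq).2.2.1⟩
    obtain ⟨y, -, hy1, hy2⟩ := hpre O1 O2 ho1 ho2 hcov h1 h2
    rw [hO1, mem_iUnion₂] at hy1
    rw [hO2, mem_iUnion₂] at hy2
    obtain ⟨q1, hq1, hyq1⟩ := hy1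
    obtain ⟨q2, hq2, hyq2⟩ := hy2
    have hy : PropAt D g g' κ y := (hN q1 hq1.1).2.2.2 κ q1 (hN q1 hq1.1).2.2.1 hq1.2 y hyq1
    exact hq2.2 ((hN q2 hq2.1).2.2.2 κ y hyq2 hy q2 (hN q2 hq2.1).2.2.1)

end Pool.Agent.Results.MP_134ef0_gt.SubRiemannianEisenhart
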